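import Pool.Agent.H99Thin.Window

/-!
# Thin trees from interval representations

Clusters are merged one after the other; the cluster whose interval ends first is joined to a
neighbouring cluster by the edge of the window lemma.
-/

set_option autoImplicit false

namespace Pool.Agent.H99Thin

open Finset

variable {V : Type} [Fintype V] [DecidableEq V]

/-- the number of edges of `T` with exactly one end in `A` -/
noncomputable def tc (T : SimpleGraph V) (A : Finset V) : ℕ :=
  Set.ncard {p : V × V | p.1 ∈ A ∧ p.2 ∉ A ∧ T.Adj p.1 p.2}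

omit [DecidableEq V] in
theorem tc_mono {T T' : SimpleGraph V} (h : T ≤ T') (A : Finset V) : tc T A ≤ tc T' A := by
  unfold tc
  exact Set.ncard_le_ncard (fun p hp => ⟨hp.1, hp.2.1, h hp.2.2⟩) (Set.toFinite _)

/-- the state of the merging process -/
structure St (m : V → V → ℝ) (l r : V → ℕ) (w : ℕ) (s : ℝ) (c : V → V) (H : SimpleGraph V)
    (L : ℕ → ℕ) : Prop where
  conv : ∀ u v, c u = c v → ∀ t, l u ≤ t → t ≤ r v → ∃ x, c x = c u ∧ l x ≤ t ∧ t ≤ r x
  span : ∀ u v, c u = c v → H.Reachable u v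
  adj : ∀ u v, H.Adj u v → 0 < m u v
  load : ∀ A : Finset V, s * tc H A ≤ ∑ u ∈ A, ∑ v ∈ Aᶜ, m u v * L (max (l u) (l v))
  wid : ∀ t, L t + ((al l r t).image c).card ≤ w + 1

/-- the class of `x` -/
def cls (c : V → V) (x : V) : Finset V := univ.filter fun v => c v = x

theorem mem_cls {c : V → V} {x v : V} : v ∈ cls c x ↔ c v = x := by simp [cls]

/-- A cluster and a neighbouring cluster with at least `k / w` edges between them. -/
theorem heavy_pair {m : V → V → ℝ} {l r : V → ℕ} {w : ℕ} (hR : Rep m l r w) {k : ℝ} (hk : 0 < k)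
    (hconn : ∀ A : Finset V, A.Nonempty → A ≠ univ → k ≤ E m A Aᶜ) {c : V → V}
    (hconv : ∀ u v, c u = c v → ∀ t, l u ≤ t → t ≤ r v → ∃ x, c x = c u ∧ l x ≤ t ∧ t ≤ r x)
    (hwid : ∀ t, ((al l r t).image c).card ≤ w + 1) (hne : ∃ u v, c u ≠ c v) :
    0 < w ∧ ∃ p q, p ≠ q ∧ k ≤ w * E m (cls c p) (cls c q) := by
  obtain ⟨u0, v0, huv⟩ := hne
  -- the right end of the cluster of `x`
  let R : V → ℕ := fun x => (cls c (c x)).sup r
  obtain ⟨x0, _, hx0⟩ := exists_min_image univ R ⟨u0, mem_univ _⟩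
  have hattain : ∀ x, ∃ v, c v = c x ∧ r v = R x := by
    intro x
    obtain ⟨v, hv, hv'⟩ := exists_mem_eq_sup (cls c (c x)) ⟨x, mem_cls.2 rfl⟩ r
    exact ⟨v, mem_cls.1 hv, hv'.symm⟩
  have hle : ∀ x v, c v = c x → r v ≤ R x := fun x v hv => le_sup (f := r) (mem_cls.2 hv)
  set T := R x0 with hT
  set D := ((al l r T).image c).erase (c x0) with hD
  set K := cls c (c x0) with hK
  -- the first cluster is alive at its end
  obtain ⟨v1, hv1, hv1'⟩ := hattain x0
  have hx0D : c x0 ∈ (al l r T).image c :=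
    mem_image.2 ⟨v1, mem_al.2 ⟨by rw [hT, ← hv1']; exact hR.lr v1, by rw [hT, hv1']⟩, hv1⟩
  have hDc : D.card ≤ w := by
    have h1 : D.card = ((al l r T).image c).card - 1 := card_erase_of_mem hx0D
    have h2 := hwid T
    omega
  -- the neighbouring clusters are alive at this time
  have hnb : ∀ u ∈ K, ∀ v ∈ Kᶜ, 0 < m u v → c v ∈ D := by
    intro u hu v hv huv
    have hcu := mem_cls.1 hu
    have hcv : c v ≠ c x0 := fun h => (mem_compl.1 hv) (mem_cls.2 h)
    refine mem_erase.2 ⟨hcv, ?_⟩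
    have h1 : l v ≤ r u := hR.adj v u (by rw [hR.symm]; exact huv)
    have h2 : r u ≤ T := hle x0 u hcu
    obtain ⟨v2, hv2, hv2'⟩ := hattain v
    have h3 : T ≤ R v := hx0 v (mem_univ _)
    obtain ⟨x, hx, hx1, hx2⟩ := hconv v v2 hv2.symm T (h1.trans h2) (by rw [hv2']; exact h3)
    exact mem_image.2 ⟨x, mem_al.2 ⟨hx1, hx2⟩, hx⟩
  have hKne : K.Nonempty := ⟨x0, mem_cls.2 rfl⟩
  have hKu : K ≠ univ := by
    intro h
    have h1 : u0 ∈ K := by rw [h]; exact mem_univ _
    have h2 : v0 ∈ K := by rw [h]; exact mem_univ _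
    exact huv ((mem_cls.1 h1).trans (mem_cls.1 h2).symm)
  have hsum : k ≤ ∑ j ∈ D, E m K (cls c j) := by
    refine (hconn K hKne hKu).trans ?_
    unfold E
    have h1 : ∀ u ∈ K, ∑ v ∈ Kᶜ, m u v ≤ ∑ j ∈ D, ∑ v ∈ cls c j, m u v := by
      intro u hu
      have h2 : ∑ v ∈ Kᶜ, m u v = ∑ v ∈ Kᶜ.filter (fun v => c v ∈ D), m u v := by
        symm
        refine sum_subset (filter_subset _ _) fun v hv hv' => ?_
        rcases (hR.nn u v).eq_or_lt with h0 | h0
        · exact h0.symm
        · exact absurd (mem_filter.2 ⟨hv, hnb u hu v hv h0⟩) hv'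
      rw [h2]
      have h3 : ∑ v ∈ univ.filter (fun v => c v ∈ D), m u v = ∑ j ∈ D, ∑ v ∈ cls c j, m u v := by
        rw [← sum_fiberwise_of_maps_to (s := univ.filter (fun v => c v ∈ D)) (t := D) (g := c)
          (f := fun v => m u v) (fun v hv => (mem_filter.1 hv).2)]
        refine sum_congr rfl fun j hj => sum_congr ?_ fun _ _ => rfl
        ext v
        simp only [mem_filter, mem_univ, true_and, mem_cls]
        constructor
        · exact fun h => h.2
        · exact fun h => ⟨by rw [h]; exact hj, h⟩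
      rw [← h3]
      exact sum_le_sum_of_subset_of_nonneg (filter_subset_filter _ (subset_univ _))
        fun v _ _ => hR.nn u v
    calc ∑ u ∈ K, ∑ v ∈ Kᶜ, m u v ≤ ∑ u ∈ K, ∑ j ∈ D, ∑ v ∈ cls c j, m u v := sum_le_sum h1
      _ = ∑ j ∈ D, ∑ u ∈ K, ∑ v ∈ cls c j, m u v := sum_comm
      _ = _ := by rfl
  have hDne : D.Nonempty := by
    by_contra h
    rw [not_nonempty_iff_eq_empty] at h
    rw [h, sum_empty] at hsum
    linarith
  have hw : 0 < w := lt_of_lt_of_le hDne.card_pos hDc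
  refine ⟨hw, ?_⟩
  by_contra hcon
  push Not at hcon
  have h1 : ∀ j ∈ D, (w : ℝ) * E m K (cls c j) < k := fun j hj =>
    hcon (c x0) j (fun h => (mem_erase.1 hj).1 h.symm)
  have h2 := sum_lt_sum_of_nonempty hDne h1
  rw [← mul_sum, sum_const, nsmul_eq_mul] at h2
  have h3 : (D.card : ℝ) ≤ w := by exact_mod_cast hDc
  have h4 : (0 : ℝ) ≤ w := Nat.cast_nonneg _
  nlinarith

/-- One step of the merging process. -/
theorem step {m : V → V → ℝ} {l r : V → ℕ} {w : ℕ} (hR : Rep m l r w) {k : ℝ} (hk : 0 < k)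
    (hconn : ∀ A : Finset V, A.Nonempty → A ≠ univ → k ≤ E m A Aᶜ) {c : V → V}
    {H : SimpleGraph V} {L : ℕ → ℕ} (hS : St m l r w (k / (16 * w * (w + 1) ^ 2)) c H L)
    (hne : ∃ u v, c u ≠ c v) :
    ∃ (c' : V → V) (H' : SimpleGraph V) (L' : ℕ → ℕ),
      St m l r w (k / (16 * w * (w + 1) ^ 2)) c' H' L' ∧
      (univ.image c').card < (univ.image c).card := by
  obtain ⟨hw, p, q, hpq, hE⟩ := heavy_pair hR hk hconn hS.conv
    (fun t => by have := hS.wid t; omega) hne
  set s := k / (16 * w * (w + 1) ^ 2) with hs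
  have hs0 : 0 ≤ s := by positivity
  set K := cls c p with hK
  set K' := cls c q with hK'
  -- the clusters are nonempty
  have hEpos : 0 < E m K K' := by
    by_contra h
    have : (w : ℝ) * E m K K' ≤ 0 := mul_nonpos_of_nonneg_of_nonpos (Nat.cast_nonneg _) (not_lt.1 h)
    linarith
  have hKne : K.Nonempty := by
    by_contra h
    rw [not_nonempty_iff_eq_empty] at h
    rw [h] at hEpos
    simp [E] at hEpos
  have hK'ne : K'.Nonempty := by
    by_contra h
    rw [not_nonempty_iff_eq_empty] at h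
    rw [h] at hEpos
    simp [E] at hEpos
  -- the ends of the clusters
  obtain ⟨k1, hk1, hk1'⟩ := exists_min_image K l hKne
  obtain ⟨k2, hk2, hk2'⟩ := exists_max_image K r hKne
  obtain ⟨q1, hq1, hq1'⟩ := exists_min_image K' l hK'ne
  obtain ⟨q2, hq2, hq2'⟩ := exists_max_image K' r hK'ne
  set a := max (l k1) (l q1) with ha
  set b := min (r k2) (r q2) with hb
  have hwin : ∀ u ∈ K, ∀ v ∈ K', 0 < m u v → a ≤ max (l u) (l v) ∧ max (l u) (l v) ≤ b := by
    intro u hu v hv h
    have h1 := hR.adj u v h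
    have h2 := hR.adj v u (by rw [hR.symm]; exact h)
    have h3 := hk1' u hu
    have h4 := hk2' u hu
    have h5 := hq1' v hv
    have h6 := hq2' v hv
    have h7 := hR.lr u
    have h8 := hR.lr v
    constructor
    · omega
    · omega
  obtain ⟨y, hy, z, hz, hyz, hcut⟩ := window hR hk hconn hw a b K K' hwin hE
  have hcy := mem_cls.1 hy
  have hcz := mem_cls.1 hz
  have hyzne : y ≠ z := fun h => hpq (by rw [← hcy, ← hcz, h])
  have hl1 : l y ≤ r z := hR.adj y z hyz
  have hl2 : l z ≤ r y := hR.adj z y (by rw [hR.symm]; exact hyz)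
  have hck1 := mem_cls.1 hk1
  have hck2 := mem_cls.1 hk2
  have hcq1 := mem_cls.1 hq1
  have hcq2 := mem_cls.1 hq2
  let c' : V → V := fun v => if c v = q then p else c v
  let H' : SimpleGraph V := H ⊔ SimpleGraph.edge y z
  let L' : ℕ → ℕ := fun t => if a ≤ t ∧ t ≤ b then L t + 1 else L t
  have hc'1 : ∀ v, c v = q → c' v = p := fun v hv => if_pos hv
  have hc'2 : ∀ v, c v ≠ q → c' v = c v := fun v hv => if_neg hv
  have hc'3 : ∀ u v, c' u = c' v → c u = c v ∨ (c u = p ∧ c v = q) ∨ (c u = q ∧ c v = p) := by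
    intro u v h
    by_cases hu : c u = q
    · by_cases hv : c v = q
      · exact Or.inl (hu.trans hv.symm)
      · rw [hc'1 u hu, hc'2 v hv] at h
        exact Or.inr (Or.inr ⟨hu, h.symm⟩)
    · by_cases hv : c v = q
      · rw [hc'2 u hu, hc'1 v hv] at h
        exact Or.inr (Or.inl ⟨h, hv⟩)
      · rw [hc'2 u hu, hc'2 v hv] at h
        exact Or.inl h
  have hc'4 : ∀ u v, c u = c v → c' u = c' v := by
    intro u v h
    show (if c u = q then p else c u) = (if c v = q then p else c v)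
    rw [h]
  have hc'5 : ∀ u, c u = p → c' u = p := fun u hu => by rw [hc'2 u (by rw [hu]; exact hpq), hu]
  have hle : H ≤ H' := le_sup_left
  have hyzadj : H'.Adj y z := by
    show (H ⊔ SimpleGraph.edge y z).Adj y z
    rw [SimpleGraph.sup_adj]
    right
    rw [SimpleGraph.edge_adj]
    exact ⟨Or.inl ⟨rfl, rfl⟩, hyzne⟩
  refine ⟨c', H', L', ⟨?_, ?_, ?_, ?_, ?_⟩, ?_⟩
  · -- convexity
    intro u v huv t hut htv
    rcases hc'3 u v huv with h | ⟨h1, h2⟩ | ⟨h1, h2⟩
    · obtain ⟨x, hx, hx'⟩ := hS.conv u v h t hut htv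
      exact ⟨x, hc'4 x u hx, hx'⟩
    · by_cases hty : t ≤ r y
      · obtain ⟨x, hx, hx'⟩ := hS.conv u y (by rw [h1, hcy]) t hut hty
        exact ⟨x, hc'4 x u hx, hx'⟩
      · obtain ⟨x, hx, hx'⟩ := hS.conv z v (by rw [h2, hcz]) t (by omega) htv
        refine ⟨x, ?_, hx'⟩
        rw [hc'1 x (by rw [hx, hcz]), hc'5 u h1]
    · by_cases htz : t ≤ r z
      · obtain ⟨x, hx, hx'⟩ := hS.conv u z (by rw [h1, hcz]) t hut htz
        exact ⟨x, hc'4 x u hx, hx'⟩
      · obtain ⟨x, hx, hx'⟩ := hS.conv y v (by rw [h2, hcy]) t (by omega) htv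
        refine ⟨x, ?_, hx'⟩
        rw [hc'5 x (by rw [hx, hcy]), hc'1 u h1]
  · -- the clusters are connected
    intro u v huv
    rcases hc'3 u v huv with h | ⟨h1, h2⟩ | ⟨h1, h2⟩
    · exact (hS.span u v h).mono hle
    · exact ((hS.span u y (by rw [h1, hcy])).mono hle).trans
        (hyzadj.reachable.trans ((hS.span z v (by rw [h2, hcz])).mono hle))
    · exact ((hS.span u z (by rw [h1, hcz])).mono hle).trans
        (hyzadj.symm.reachable.trans ((hS.span y v (by rw [h2, hcy])).mono hle))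
  · -- edges
    intro u v huv
    have huv' : (H ⊔ SimpleGraph.edge y z).Adj u v := huv
    rw [SimpleGraph.sup_adj, SimpleGraph.edge_adj] at huv'
    rcases huv' with h | ⟨⟨h1, h2⟩ | ⟨h1, h2⟩, _⟩
    · exact hS.adj u v h
    · rw [h1, h2]; exact hyz
    · rw [h1, h2, hR.symm]; exact hyz
  · -- the load
    intro A
    have hLsum : ∑ u ∈ A, ∑ v ∈ Aᶜ, m u v * (L' (max (l u) (l v)) : ℝ) =
        ∑ u ∈ A, ∑ v ∈ Aᶜ, m u v * (L (max (l u) (l v)) : ℝ) + E (mJ m l a b) A Aᶜ := by
      unfold E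
      rw [← sum_add_distrib]
      refine sum_congr rfl fun u _ => ?_
      rw [← sum_add_distrib]
      refine sum_congr rfl fun v _ => ?_
      show m u v * ((if a ≤ max (l u) (l v) ∧ max (l u) (l v) ≤ b then L (max (l u) (l v)) + 1
        else L (max (l u) (l v)) : ℕ) : ℝ) = m u v * (L (max (l u) (l v)) : ℝ) + mJ m l a b u v
      unfold mJ
      split_ifs
      · push_cast; ring
      · ring
    rw [hLsum]
    have hload := hS.load A
    have hEnn : 0 ≤ E (mJ m l a b) A Aᶜ := E_nonneg (mJ_nonneg hR.nn l a b) _ _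
    -- the cut of the new graph
    have hsub : {p : V × V | p.1 ∈ A ∧ p.2 ∉ A ∧ H'.Adj p.1 p.2} ⊆
        {p : V × V | p.1 ∈ A ∧ p.2 ∉ A ∧ H.Adj p.1 p.2} ∪
          {p : V × V | p.1 ∈ A ∧ p.2 ∉ A ∧ (p = (y, z) ∨ p = (z, y))} := by
      rintro ⟨u, v⟩ ⟨h1, h2, h3⟩
      have h3' : (H ⊔ SimpleGraph.edge y z).Adj u v := h3
      rw [SimpleGraph.sup_adj, SimpleGraph.edge_adj] at h3'
      rcases h3' with h | ⟨⟨h4, h5⟩ | ⟨h4, h5⟩, _⟩
      · exact Or.inl ⟨h1, h2, h⟩
      · exact Or.inr ⟨h1, h2, Or.inl (by rw [h4, h5])⟩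
      · exact Or.inr ⟨h1, h2, Or.inr (by rw [h4, h5])⟩
    have hcard : tc H' A ≤ tc H A +
        Set.ncard {p : V × V | p.1 ∈ A ∧ p.2 ∉ A ∧ (p = (y, z) ∨ p = (z, y))} := by
      unfold tc
      exact (Set.ncard_le_ncard hsub (Set.toFinite _)).trans (Set.ncard_union_le _ _)
    by_cases hc1 : y ∈ A ∧ z ∉ A
    · have h1 : {p : V × V | p.1 ∈ A ∧ p.2 ∉ A ∧ (p = (y, z) ∨ p = (z, y))} ⊆ {(y, z)} := by
        rintro ⟨u, v⟩ ⟨h1, h2, h3 | h3⟩
        · exact h3
        · rw [Prod.mk.injEq] at h3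
          exact absurd h1 (by rw [h3.1]; exact hc1.2)
      have h2 := Set.ncard_le_ncard h1 (Set.toFinite _)
      rw [Set.ncard_singleton] at h2
      have h3 : (tc H' A : ℝ) ≤ tc H A + 1 := by exact_mod_cast hcard.trans (by omega)
      have h4 := hcut A hc1.1 hc1.2
      calc s * (tc H' A : ℝ) ≤ s * (tc H A + 1) := mul_le_mul_of_nonneg_left h3 hs0
        _ = s * tc H A + s := by ring
        _ ≤ _ := add_le_add hload h4
    · by_cases hc2 : z ∈ A ∧ y ∉ A
      · have h1 : {p : V × V | p.1 ∈ A ∧ p.2 ∉ A ∧ (p = (y, z) ∨ p = (z, y))} ⊆ {(z, y)} := by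
          rintro ⟨u, v⟩ ⟨h1, h2, h3 | h3⟩
          · rw [Prod.mk.injEq] at h3
            exact absurd h1 (by rw [h3.1]; exact hc2.2)
          · exact h3
        have h2 := Set.ncard_le_ncard h1 (Set.toFinite _)
        rw [Set.ncard_singleton] at h2
        have h3 : (tc H' A : ℝ) ≤ tc H A + 1 := by exact_mod_cast hcard.trans (by omega)
        have h4 := hcut Aᶜ (mem_compl.2 hc2.2) (by rw [mem_compl, not_not]; exact hc2.1)
        rw [compl_compl, E_comm (mJ_symm hR.symm l a b)] at h4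
        calc s * (tc H' A : ℝ) ≤ s * (tc H A + 1) := mul_le_mul_of_nonneg_left h3 hs0
          _ = s * tc H A + s := by ring
          _ ≤ _ := add_le_add hload h4
      · have h1 : {p : V × V | p.1 ∈ A ∧ p.2 ∉ A ∧ (p = (y, z) ∨ p = (z, y))} = ∅ := by
          rw [Set.eq_empty_iff_forall_notMem]
          rintro ⟨u, v⟩ ⟨h1, h2, h3 | h3⟩
          · rw [Prod.mk.injEq] at h3
            exact hc1 ⟨by rw [← h3.1]; exact h1, by rw [← h3.2]; exact h2⟩
          · rw [Prod.mk.injEq] at h3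
            exact hc2 ⟨by rw [← h3.1]; exact h1, by rw [← h3.2]; exact h2⟩
        rw [h1, Set.ncard_empty, add_zero] at hcard
        have h3 : (tc H' A : ℝ) ≤ tc H A := by exact_mod_cast hcard
        calc s * (tc H' A : ℝ) ≤ s * tc H A := mul_le_mul_of_nonneg_left h3 hs0
          _ ≤ _ := by linarith
  · -- the width
    intro t
    have hwt := hS.wid t
    have himg : (al l r t).image c' ⊆ ((al l r t).image c).image (fun x => if x = q then p else x) := by
      rw [image_image]
      exact subset_of_eq rfl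
    have hcardle : ((al l r t).image c').card ≤ ((al l r t).image c).card :=
      (card_le_card himg).trans card_image_le
    by_cases ht : a ≤ t ∧ t ≤ b
    · have hL' : L' t = L t + 1 := if_pos ht
      -- both clusters are alive
      obtain ⟨x1, hx1, hx1'⟩ := hS.conv k1 k2 (by rw [hck1, hck2]) t (by omega) (by omega)
      obtain ⟨x2, hx2, hx2'⟩ := hS.conv q1 q2 (by rw [hcq1, hcq2]) t (by omega) (by omega)
      have hp : p ∈ (al l r t).image c := mem_image.2 ⟨x1, mem_al.2 hx1', by rw [hx1, hck1]⟩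
      have hq : q ∈ (al l r t).image c := mem_image.2 ⟨x2, mem_al.2 hx2', by rw [hx2, hcq1]⟩
      have h1 : (al l r t).image c' ⊆ ((al l r t).image c).erase q := by
        intro x hx
        obtain ⟨v, hv, rfl⟩ := mem_image.1 hx
        by_cases hvq : c v = q
        · rw [hc'1 v hvq]
          exact mem_erase.2 ⟨hpq, hp⟩
        · rw [hc'2 v hvq]
          exact mem_erase.2 ⟨hvq, mem_image_of_mem c hv⟩
      have h2 := card_le_card h1
      rw [card_erase_of_mem hq] at h2
      have h3 : 0 < ((al l r t).image c).card := card_pos.2 ⟨q, hq⟩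
      omega
    · have hL' : L' t = L t := if_neg ht
      omega
  · -- the number of clusters
    have hq : q ∈ univ.image c := mem_image.2 ⟨z, mem_univ _, hcz⟩
    have hp : p ∈ univ.image c := mem_image.2 ⟨y, mem_univ _, hcy⟩
    have h1 : univ.image c' ⊆ (univ.image c).erase q := by
      intro x hx
      obtain ⟨v, hv, rfl⟩ := mem_image.1 hx
      by_cases hvq : c v = q
      · rw [hc'1 v hvq]
        exact mem_erase.2 ⟨hpq, hp⟩
      · rw [hc'2 v hvq]
        exact mem_erase.2 ⟨hvq, mem_image_of_mem c hv⟩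
    exact lt_of_le_of_lt (card_le_card h1) (card_erase_lt_of_mem hq)

theorem run {m : V → V → ℝ} {l r : V → ℕ} {w : ℕ} (hR : Rep m l r w) {k : ℝ} (hk : 0 < k)
    (hconn : ∀ A : Finset V, A.Nonempty → A ≠ univ → k ≤ E m A Aᶜ) (n : ℕ) :
    ∀ (c : V → V) (H : SimpleGraph V) (L : ℕ → ℕ), (univ.image c).card ≤ n →
      St m l r w (k / (16 * w * (w + 1) ^ 2)) c H L →
      ∃ (c' : V → V) (H' : SimpleGraph V) (L' : ℕ → ℕ),
        St m l r w (k / (16 * w * (w + 1) ^ 2)) c' H' L' ∧ ∀ u v, c' u = c' v := by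
  induction n with
  | zero =>
    intro c H L hc hS
    refine ⟨c, H, L, hS, fun u v => ?_⟩
    have h1 : univ.image c = ∅ := card_eq_zero.1 (Nat.le_zero.1 hc)
    have h2 : c u ∈ univ.image c := mem_image_of_mem c (mem_univ _)
    rw [h1] at h2
    exact absurd h2 (notMem_empty _)
  | succ n ih =>
    intro c H L hc hS
    by_cases h : ∀ u v, c u = c v
    · exact ⟨c, H, L, hS, h⟩
    · push Not at h
      obtain ⟨c', H', L', hS', hlt⟩ := step hR hk hconn hS h
      exact ih c' H' L' (by omega) hS'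

/-- **Thin trees for interval representations of bounded width.** -/
theorem main [Nonempty V] {m : V → V → ℝ} {l r : V → ℕ} {w : ℕ} (hR : Rep m l r w) {k : ℝ}
    (hk : 0 < k) (hconn : ∀ A : Finset V, A.Nonempty → A ≠ univ → k ≤ E m A Aᶜ) :
    ∃ T : SimpleGraph V, T.IsTree ∧ (∀ u v, T.Adj u v → 0 < m u v) ∧
      ∀ A : Finset V, (tc T A : ℝ) ≤ 16 * w ^ 2 * (w + 1) ^ 2 / k * E m A Aᶜ := by
  have h0 : St m l r w (k / (16 * w * (w + 1) ^ 2)) id ⊥ (fun _ => 0) := by
    refine ⟨?_, ?_, ?_, ?_, ?_⟩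
    · intro u v huv t h1 h2
      have huv' : u = v := huv
      subst huv'
      exact ⟨u, rfl, h1, h2⟩
    · intro u v huv
      have huv' : u = v := huv
      subst huv'
      exact SimpleGraph.Reachable.refl _
    · intro u v h
      exact absurd h (by simp)
    · intro A
      have h1 : tc (⊥ : SimpleGraph V) A = 0 := by
        unfold tc
        simp
      rw [h1]
      simp
    · intro t
      have := hR.wd t
      rw [image_id, zero_add]
      exact this
  obtain ⟨c, H, L, hS, hc⟩ := run hR hk hconn _ id ⊥ (fun _ => 0) le_rfl h0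
  have hconnH : H.Connected := by
    rw [SimpleGraph.connected_iff]
    exact ⟨fun u v => hS.span u v (hc u v), inferInstance⟩
  obtain ⟨T, hTH, hT⟩ := hconnH.exists_isTree_le
  refine ⟨T, hT, fun u v h => hS.adj u v (hTH h), fun A => ?_⟩
  -- the load at the end
  have hLw : ∀ u v, 0 < m u v → L (max (l u) (l v)) ≤ w := by
    intro u v h
    have h1 := hR.adj u v h
    have h2 := hR.adj v u (by rw [hR.symm]; exact h)
    have h3 := hR.lr u
    have h4 := hS.wid (max (l u) (l v))
    have h5 : u ∈ al l r (max (l u) (l v)) := mem_al.2 ⟨by omega, by omega⟩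
    have h6 : 0 < ((al l r (max (l u) (l v))).image c).card :=
      card_pos.2 ⟨c u, mem_image_of_mem c h5⟩
    omega
  have hload := hS.load A
  have h1 : ∑ u ∈ A, ∑ v ∈ Aᶜ, m u v * (L (max (l u) (l v)) : ℝ) ≤ w * E m A Aᶜ := by
    unfold E
    rw [mul_sum]
    refine sum_le_sum fun u _ => ?_
    rw [mul_sum]
    refine sum_le_sum fun v _ => ?_
    rcases (hR.nn u v).eq_or_lt with h0 | h0
    · rw [← h0]; simp
    · have h2 : (L (max (l u) (l v)) : ℝ) ≤ w := by exact_mod_cast hLw u v h0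
      rw [mul_comm]
      exact mul_le_mul_of_nonneg_right h2 h0.le
  rcases Nat.eq_zero_or_pos w with hw0 | hw
  · -- width 0: there are no edges
    have hEz : ∀ u v, u ≠ v → m u v = 0 := by
      intro u v huv
      rcases (hR.nn u v).eq_or_lt with h0 | h0
      · exact h0.symm
      · have h1 := hR.adj u v h0
        have h2 := hR.adj v u (by rw [hR.symm]; exact h0)
        have h3 := hR.lr u
        have h4 := hR.lr v
        have h5 : ({u, v} : Finset V) ⊆ al l r (max (l u) (l v)) := by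
          intro x hx
          rw [mem_insert, mem_singleton] at hx
          rcases hx with rfl | rfl
          · exact mem_al.2 ⟨by omega, by omega⟩
          · exact mem_al.2 ⟨by omega, by omega⟩
        have h6 := card_le_card h5
        rw [card_pair huv] at h6
        have h7 := hR.wd (max (l u) (l v))
        omega
    have hTz : tc T A = 0 := by
      unfold tc
      rw [Set.ncard_eq_zero (Set.toFinite _), Set.eq_empty_iff_forall_notMem]
      rintro ⟨u, v⟩ ⟨_, _, h3⟩
      have h4 := hS.adj u v (hTH h3)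
      rw [hEz u v h3.ne] at h4
      exact lt_irrefl _ h4
    rw [hTz]
    have h2 : 0 ≤ E m A Aᶜ := E_nonneg hR.nn _ _
    push_cast
    positivity
  · have hw' : (0 : ℝ) < w := by exact_mod_cast hw
    have h2 : (tc T A : ℝ) ≤ tc H A := by exact_mod_cast tc_mono hTH A
    have hs0 : 0 < k / (16 * (w : ℝ) * (w + 1) ^ 2) := by positivity
    have h3 : k / (16 * (w : ℝ) * (w + 1) ^ 2) * tc H A ≤ w * E m A Aᶜ := hload.trans h1
    have h4 : (tc H A : ℝ) ≤ w * E m A Aᶜ / (k / (16 * (w : ℝ) * (w + 1) ^ 2)) := by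
      rw [le_div_iff₀ hs0, mul_comm]
      exact h3
    refine h2.trans (h4.trans_eq ?_)
    field_simp

end Pool.Agent.H99Thin
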