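import Mathlib

/-!
# Partition of a weighted graph into well connected parts

Repeated splitting along cuts of weight less than `κ` gives a partition into parts whose inner cuts
all have weight at least `κ`, and at most `κ` times (number of parts minus one) weight between
different parts.
-/

set_option autoImplicit false

namespace Pool.Agent.H99Thin

open Finset

variable {V : Type} [DecidableEq V]

/-- total weight from `A` to `B` -/
def E (m : V → V → ℝ) (A B : Finset V) : ℝ := ∑ u ∈ A, ∑ v ∈ B, m u v

theorem E_nonneg {m : V → V → ℝ} (hm : ∀ u v, 0 ≤ m u v) (A B : Finset V) : 0 ≤ E m A B :=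
  sum_nonneg fun u _ => sum_nonneg fun v _ => hm u v

theorem E_comm {m : V → V → ℝ} (hs : ∀ u v, m u v = m v u) (A B : Finset V) :
    E m A B = E m B A := by
  unfold E
  rw [sum_comm]
  exact sum_congr rfl fun u _ => sum_congr rfl fun v _ => hs v u

theorem E_union_left {m : V → V → ℝ} {A A' : Finset V} (h : Disjoint A A') (B : Finset V) :
    E m (A ∪ A') B = E m A B + E m A' B := sum_union h

theorem E_union_right {m : V → V → ℝ} {B B' : Finset V} (h : Disjoint B B') (A : Finset V) :
    E m A (B ∪ B') = E m A B + E m A B' := by
  unfold E
  rw [← sum_add_distrib]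
  exact sum_congr rfl fun u _ => sum_union h

theorem E_mono {m : V → V → ℝ} (hm : ∀ u v, 0 ≤ m u v) {A A' B B' : Finset V} (hA : A ⊆ A')
    (hB : B ⊆ B') : E m A B ≤ E m A' B' := by
  unfold E
  calc ∑ u ∈ A, ∑ v ∈ B, m u v ≤ ∑ u ∈ A, ∑ v ∈ B', m u v :=
        sum_le_sum fun u _ => sum_le_sum_of_subset_of_nonneg hB fun v _ _ => hm u v
    _ ≤ _ := sum_le_sum_of_subset_of_nonneg hA fun u _ _ => sum_nonneg fun v _ => hm u v

/-- weight between different classes of `f` inside `S` (every pair is counted twice) -/
def cross (m : V → V → ℝ) (f : V → ℕ) (S : Finset V) : ℝ :=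
  ∑ u ∈ S, ∑ v ∈ S, if f u = f v then 0 else m u v

theorem exists_part {m : V → V → ℝ} (hs : ∀ u v, m u v = m v u) {κ : ℝ} (n : ℕ) :
    ∀ S : Finset V, S.card ≤ n → S.Nonempty → ∃ f : V → ℕ,
      (∀ i, ∀ B ⊆ S.filter (fun v => f v = i), B.Nonempty → B ≠ S.filter (fun v => f v = i) →
        κ ≤ E m B (S.filter (fun v => f v = i) \ B)) ∧
      cross m f S ≤ 2 * κ * (((S.image f).card : ℝ) - 1) := by
  induction n with
  | zero =>
    intro S hS hne
    exact absurd (card_eq_zero.1 (Nat.le_zero.1 hS)) hne.ne_empty
  | succ n ih =>
    intro S hS hne
    by_cases hall : ∀ B ⊆ S, B.Nonempty → B ≠ S → κ ≤ E m B (S \ B)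
    · refine ⟨fun _ => 0, fun i B hB hBne hBS => ?_, ?_⟩
      · by_cases hi : i = 0
        · subst hi
          have h1 : S.filter (fun _ => (0 : ℕ) = 0) = S := by simp
          rw [h1] at hB hBS ⊢
          exact hall B hB hBne hBS
        · have h1 : S.filter (fun _ => (0 : ℕ) = i) = ∅ := by
            rw [filter_eq_empty_iff]
            intro v _ h
            exact hi h.symm
          rw [h1, subset_empty] at hB
          exact absurd hB hBne.ne_empty
      · have h1 : S.image (fun _ => (0 : ℕ)) = {0} := image_const hne 0
        have h2 : cross m (fun _ => 0) S = 0 := by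
          unfold cross
          simp
        rw [h1, h2, card_singleton]
        simp
    · push Not at hall
      obtain ⟨B, hBS, hBne, hBneS, hBκ⟩ := hall
      have hss : B ⊂ S := ssubset_of_subset_of_ne hBS hBneS
      have hc1 : B.card < S.card := card_lt_card hss
      have hne2 : (S \ B).Nonempty := sdiff_nonempty.2 fun h => hBneS (subset_antisymm hBS h)
      have hc2 : (S \ B).card < S.card := by
        rw [card_sdiff_of_subset hBS]
        have := hBne.card_pos
        omega
      obtain ⟨f1, h1a, h1b⟩ := ih B (by omega) hBne
      obtain ⟨f2, h2a, h2b⟩ := ih (S \ B) (by omega) hne2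
      let f : V → ℕ := fun v => if v ∈ B then 2 * f1 v else 2 * f2 v + 1
      have hfB : ∀ v ∈ B, f v = 2 * f1 v := fun v hv => if_pos hv
      have hfC : ∀ v, v ∉ B → f v = 2 * f2 v + 1 := fun v hv => if_neg hv
      have hfil1 : ∀ j, S.filter (fun v => f v = 2 * j) = B.filter (fun v => f1 v = j) := by
        intro j
        ext v
        simp only [mem_filter]
        constructor
        · rintro ⟨hv, h⟩
          by_cases hvB : v ∈ B
          · rw [hfB v hvB] at h
            exact ⟨hvB, by omega⟩
          · rw [hfC v hvB] at h
            omega
        · rintro ⟨hv, h⟩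
          exact ⟨hBS hv, by rw [hfB v hv]; omega⟩
      have hfil2 : ∀ j, S.filter (fun v => f v = 2 * j + 1) =
          (S \ B).filter (fun v => f2 v = j) := by
        intro j
        ext v
        simp only [mem_filter, mem_sdiff]
        constructor
        · rintro ⟨hv, h⟩
          by_cases hvB : v ∈ B
          · rw [hfB v hvB] at h
            omega
          · rw [hfC v hvB] at h
            exact ⟨⟨hv, hvB⟩, by omega⟩
        · rintro ⟨⟨hv, hvB⟩, h⟩
          exact ⟨hv, by rw [hfC v hvB]; omega⟩
      refine ⟨f, fun i => ?_, ?_⟩
      · obtain ⟨j, hj | hj⟩ : ∃ j, i = 2 * j ∨ i = 2 * j + 1 := ⟨i / 2, by omega⟩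
        · subst hj
          rw [hfil1]
          exact h1a j
        · subst hj
          rw [hfil2]
          exact h2a j
      · have hdis : Disjoint B (S \ B) := disjoint_sdiff
        have hun : B ∪ (S \ B) = S := union_sdiff_of_subset hBS
        have hcard : (S.image f).card = (B.image f1).card + ((S \ B).image f2).card := by
          conv_lhs => rw [← hun]
          rw [image_union, card_union_of_disjoint]
          · congr 1
            · have e1 : B.image f = (B.image f1).image (fun j => 2 * j) := by
                rw [image_image]
                exact image_congr fun v hv => hfB v hv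
              rw [e1, card_image_of_injective _ fun a b h => by
                have : 2 * a = 2 * b := h
                omega]
            · have e1 : (S \ B).image f = ((S \ B).image f2).image (fun j => 2 * j + 1) := by
                rw [image_image]
                exact image_congr fun v hv => hfC v (mem_sdiff.1 hv).2
              rw [e1, card_image_of_injective _ fun a b h => by
                have : 2 * a + 1 = 2 * b + 1 := h
                omega]
          · rw [disjoint_left]
            intro x hx hx'
            obtain ⟨v, hv, rfl⟩ := mem_image.1 hx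
            obtain ⟨v', hv', h⟩ := mem_image.1 hx'
            rw [hfB v hv, hfC v' (mem_sdiff.1 hv').2] at h
            omega
        have hcross : cross m f S = cross m f1 B + cross m f2 (S \ B) + 2 * E m B (S \ B) := by
          have e0 : cross m f S = ∑ u ∈ B ∪ (S \ B), ∑ v ∈ B ∪ (S \ B),
              if f u = f v then 0 else m u v := by rw [hun]; rfl
          rw [e0, sum_union hdis]
          simp only [sum_union hdis, sum_add_distrib]
          have e1 : ∑ u ∈ B, ∑ v ∈ B, (if f u = f v then 0 else m u v) = cross m f1 B := by
            refine sum_congr rfl fun u hu => sum_congr rfl fun v hv => ?_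
            rw [hfB u hu, hfB v hv]
            by_cases h : f1 u = f1 v
            · rw [if_pos (by rw [h]), if_pos h]
            · rw [if_neg (by omega), if_neg h]
          have e2 : ∑ u ∈ S \ B, ∑ v ∈ S \ B, (if f u = f v then 0 else m u v) =
              cross m f2 (S \ B) := by
            refine sum_congr rfl fun u hu => sum_congr rfl fun v hv => ?_
            rw [hfC u (mem_sdiff.1 hu).2, hfC v (mem_sdiff.1 hv).2]
            by_cases h : f2 u = f2 v
            · rw [if_pos (by rw [h]), if_pos h]
            · rw [if_neg (by omega), if_neg h]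
          have e3 : ∑ u ∈ B, ∑ v ∈ S \ B, (if f u = f v then 0 else m u v) = E m B (S \ B) := by
            refine sum_congr rfl fun u hu => sum_congr rfl fun v hv => ?_
            rw [hfB u hu, hfC v (mem_sdiff.1 hv).2, if_neg (by omega)]
          have e4 : ∑ u ∈ S \ B, ∑ v ∈ B, (if f u = f v then 0 else m u v) = E m B (S \ B) := by
            rw [E_comm hs]
            refine sum_congr rfl fun u hu => sum_congr rfl fun v hv => ?_
            rw [hfC u (mem_sdiff.1 hu).2, hfB v hv, if_neg (by omega)]
          rw [e1, e2, e3, e4]
          ring
        rw [hcross, hcard]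
        push_cast
        nlinarith

end Pool.Agent.H99Thin
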