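import Pool.Agent.H99Thin.Part

/-!
# Windows of an interval representation

`l v ≤ r v` are the ends of the interval of `v`; adjacent vertices have intersecting intervals and
every point is in at most `w + 1` intervals. The time of the pair `u v` is `max (l u) (l v)`.
In a window `[a, b]` the graph of the edges with time in `[a, b]` has a partition into at most
`4 (w + 1)` parts which are `k / 4`-edge connected.
-/

set_option autoImplicit false

namespace Pool.Agent.H99Thin

open Finset

variable {V : Type} [Fintype V] [DecidableEq V]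

/-- the vertices alive at time `t` -/
def al (l r : V → ℕ) (t : ℕ) : Finset V := univ.filter fun v => l v ≤ t ∧ t ≤ r v

omit [DecidableEq V] in
theorem mem_al {l r : V → ℕ} {t : ℕ} {v : V} : v ∈ al l r t ↔ l v ≤ t ∧ t ≤ r v := by
  simp [al]

/-- the weights of the pairs with time in `[a, b]` -/
def mJ (m : V → V → ℝ) (l : V → ℕ) (a b : ℕ) (u v : V) : ℝ :=
  if a ≤ max (l u) (l v) ∧ max (l u) (l v) ≤ b then m u v else 0

omit [Fintype V] [DecidableEq V] in
theorem mJ_nonneg {m : V → V → ℝ} (hm : ∀ u v, 0 ≤ m u v) (l : V → ℕ) (a b : ℕ) (u v : V) :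
    0 ≤ mJ m l a b u v := by
  unfold mJ
  split_ifs
  · exact hm u v
  · exact le_rfl

omit [Fintype V] [DecidableEq V] in
theorem mJ_symm {m : V → V → ℝ} (hs : ∀ u v, m u v = m v u) (l : V → ℕ) (a b : ℕ) (u v : V) :
    mJ m l a b u v = mJ m l a b v u := by
  unfold mJ
  rw [max_comm (l u) (l v), hs u v]

/-- an interval representation of width `w` -/
structure Rep (m : V → V → ℝ) (l r : V → ℕ) (w : ℕ) : Prop where
  nn : ∀ u v, 0 ≤ m u v
  symm : ∀ u v, m u v = m v u
  lr : ∀ v, l v ≤ r v
  adj : ∀ u v, 0 < m u v → l u ≤ r v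
  wd : ∀ t, (al l r t).card ≤ w + 1

/-- the vertices alive at some time in `[a, b]` -/
def Sw (l r : V → ℕ) (a b : ℕ) : Finset V := univ.filter fun v => l v ≤ b ∧ a ≤ r v

omit [DecidableEq V] in
theorem mem_Sw {l r : V → ℕ} {a b : ℕ} {v : V} : v ∈ Sw l r a b ↔ l v ≤ b ∧ a ≤ r v := by
  simp [Sw]

/-- at most `4 (w + 1)` parts -/
theorem parts_le {m : V → V → ℝ} {l r : V → ℕ} {w : ℕ} (hR : Rep m l r w) {k : ℝ} (hk : 0 < k)
    (hconn : ∀ A : Finset V, A.Nonempty → A ≠ univ → k ≤ E m A Aᶜ) (a b : ℕ) (f : V → ℕ)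
    (hf : cross (mJ m l a b) f (Sw l r a b) ≤
      2 * (k / 4) * ((((Sw l r a b).image f).card : ℝ) - 1)) :
    ((Sw l r a b).image f).card ≤ 4 * (w + 1) := by
  set S := Sw l r a b with hS
  set R := (S.image f).card with hRdef
  set bd := al l r a ∪ al l r b with hbd
  have hbdc : bd.card ≤ 2 * (w + 1) := by
    have h1 : bd.card ≤ (al l r a).card + (al l r b).card := card_union_le _ _
    have h2 := hR.wd a
    have h3 := hR.wd b
    omega
  set 𝒞 := S.image f \ bd.image f with h𝒞
  have h𝒞c : R ≤ 𝒞.card + 2 * (w + 1) := by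
    have h1 : (S.image f).card - (bd.image f).card ≤ 𝒞.card := le_card_sdiff _ _
    have h2 : (bd.image f).card ≤ bd.card := card_image_le
    omega
  -- interior vertices
  have hint : ∀ i ∈ 𝒞, ∀ u ∈ S.filter (fun v => f v = i), a < l u ∧ r u < b := by
    intro i hi u hu
    rw [mem_filter] at hu
    have h1 : u ∉ bd := fun h => (mem_sdiff.1 hi).2 (mem_image.2 ⟨u, h, hu.2⟩)
    rw [hbd, mem_union, not_or, mem_al, mem_al] at h1
    have h2 := mem_Sw.1 hu.1
    have h3 := hR.lr u
    constructor
    · by_contra h4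
      exact h1.1 ⟨by omega, by omega⟩
    · by_contra h4
      exact h1.2 ⟨by omega, by omega⟩
  by_cases huniv : ∃ i ∈ 𝒞, S.filter (fun v => f v = i) = univ
  · obtain ⟨i, hi, hiu⟩ := huniv
    have h1 : S.image f ⊆ {i} := by
      intro x hx
      obtain ⟨v, _, rfl⟩ := mem_image.1 hx
      have h2 : v ∈ S.filter (fun v => f v = i) := by rw [hiu]; exact mem_univ v
      rw [mem_filter] at h2
      rw [mem_singleton]
      exact h2.2
    have h2 := card_le_card h1
    rw [card_singleton] at h2
    omega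
  push Not at huniv
  have hpart : ∀ i ∈ 𝒞, k ≤ ∑ u ∈ S.filter (fun v => f v = i), ∑ v ∈ S,
      if f u = f v then 0 else mJ m l a b u v := by
    intro i hi
    obtain ⟨u0, hu0, hu0'⟩ := mem_image.1 (mem_sdiff.1 hi).1
    have hne : (S.filter (fun v => f v = i)).Nonempty := ⟨u0, mem_filter.2 ⟨hu0, hu0'⟩⟩
    refine (hconn _ hne (huniv i hi)).trans ?_
    unfold E
    refine sum_le_sum fun u hu => ?_
    have h1 := hint i hi u hu
    have hfu : f u = i := (mem_filter.1 hu).2
    -- compare with the sum over all `v`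
    have h2 : ∑ v ∈ (S.filter (fun v => f v = i))ᶜ, m u v =
        ∑ v ∈ (S.filter (fun v => f v = i))ᶜ, if v ∈ S then
          (if f u = f v then 0 else mJ m l a b u v) else 0 := by
      refine sum_congr rfl fun v hv => ?_
      rcases (hR.nn u v).eq_or_lt with h0 | h0
      · rw [← h0]
        have : mJ m l a b u v = 0 := by
          unfold mJ
          rw [← h0, ite_self]
        rw [this]
        simp
      · have h3 := hR.adj u v h0
        have h4 := hR.adj v u (by rw [hR.symm]; exact h0)
        have h5 := hR.lr u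
        have hvS : v ∈ S := mem_Sw.2 ⟨by omega, by omega⟩
        have hfv : f u ≠ f v := by
          intro h
          rw [mem_compl, mem_filter, not_and] at hv
          exact hv hvS (by rw [← h, hfu])
        rw [if_pos hvS, if_neg hfv]
        unfold mJ
        rw [if_pos ⟨by omega, by omega⟩]
    rw [h2]
    have h3 : ∑ v ∈ (S.filter (fun v => f v = i))ᶜ, (if v ∈ S then
          (if f u = f v then 0 else mJ m l a b u v) else 0) ≤
        ∑ v, if v ∈ S then (if f u = f v then 0 else mJ m l a b u v) else 0 := by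
      refine sum_le_sum_of_subset_of_nonneg (subset_univ _) fun v _ _ => ?_
      split_ifs
      · exact le_rfl
      · exact mJ_nonneg hR.nn l a b u v
      · exact le_rfl
    refine h3.trans_eq ?_
    rw [← sum_filter]
    congr 1
    ext v
    simp
  have hsum : (𝒞.card : ℝ) * k ≤ cross (mJ m l a b) f S := by
    have h1 : ∑ i ∈ 𝒞, k ≤ ∑ i ∈ 𝒞, ∑ u ∈ S.filter (fun v => f v = i), ∑ v ∈ S,
        (if f u = f v then 0 else mJ m l a b u v) := sum_le_sum hpart
    rw [sum_const, nsmul_eq_mul] at h1
    refine h1.trans ?_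
    have hnn : ∀ u, 0 ≤ ∑ v ∈ S, (if f u = f v then 0 else mJ m l a b u v) := by
      intro u
      refine sum_nonneg fun v _ => ?_
      split_ifs
      · exact le_rfl
      · exact mJ_nonneg hR.nn l a b u v
    calc ∑ i ∈ 𝒞, ∑ u ∈ S.filter (fun v => f v = i), ∑ v ∈ S,
        (if f u = f v then 0 else mJ m l a b u v)
        ≤ ∑ i ∈ S.image f, ∑ u ∈ S.filter (fun v => f v = i), ∑ v ∈ S,
        (if f u = f v then 0 else mJ m l a b u v) :=
          sum_le_sum_of_subset_of_nonneg sdiff_subset fun i _ _ => sum_nonneg fun u _ => hnn u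
      _ = cross (mJ m l a b) f S := by
          unfold cross
          exact sum_fiberwise_of_maps_to (fun v hv => mem_image_of_mem f hv) _
  have h1 : (𝒞.card : ℝ) * k ≤ 2 * (k / 4) * ((R : ℝ) - 1) := hsum.trans hf
  have h2 : (𝒞.card : ℝ) ≤ ((R : ℝ) - 1) / 2 := by
    have h3 : (𝒞.card : ℝ) * k ≤ ((R : ℝ) - 1) / 2 * k := by linarith
    exact le_of_mul_le_mul_right h3 hk
  have h3 : (R : ℝ) ≤ 𝒞.card + 2 * (w + 1) := by exact_mod_cast h𝒞c
  have h4 : (R : ℝ) ≤ 4 * (w + 1) := by linarith
  exact_mod_cast h4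

/-- **The window lemma.** If all the weight between `P` and `Q` has time in `[a, b]` and is at least
`k / w`, then some edge `y z` between them is such that every cut separating `y` from `z` contains
weight at least `k / (16 w (w + 1)²)` with time in `[a, b]`. -/
theorem window {m : V → V → ℝ} {l r : V → ℕ} {w : ℕ} (hR : Rep m l r w) {k : ℝ} (hk : 0 < k)
    (hconn : ∀ A : Finset V, A.Nonempty → A ≠ univ → k ≤ E m A Aᶜ) (hw : 0 < w) (a b : ℕ)
    (P Q : Finset V) (hPQ : ∀ u ∈ P, ∀ v ∈ Q, 0 < m u v →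
      a ≤ max (l u) (l v) ∧ max (l u) (l v) ≤ b) (hE : k ≤ w * E m P Q) :
    ∃ y ∈ P, ∃ z ∈ Q, 0 < m y z ∧ ∀ A : Finset V, y ∈ A → z ∉ A →
      k / (16 * w * (w + 1) ^ 2) ≤ E (mJ m l a b) A Aᶜ := by
  have hw' : (1 : ℝ) ≤ w := by exact_mod_cast hw
  set s : ℝ := k / (16 * w * (w + 1) ^ 2) with hs
  have hs0 : 0 < s := by positivity
  set S := Sw l r a b with hS
  set M := mJ m l a b with hM
  have hMnn : ∀ u v, 0 ≤ M u v := mJ_nonneg hR.nn l a b
  have hMs : ∀ u v, M u v = M v u := mJ_symm hR.symm l a b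
  -- all edges between `P` and `Q` have their ends in `S`
  have hmem : ∀ u ∈ P, ∀ v ∈ Q, 0 < m u v → u ∈ S ∧ v ∈ S ∧ M u v = m u v := by
    intro u hu v hv h
    have h1 := hPQ u hu v hv h
    have h2 := hR.adj u v h
    have h3 := hR.adj v u (by rw [hR.symm]; exact h)
    have h4 := hR.lr u
    have h5 := hR.lr v
    refine ⟨mem_Sw.2 ⟨by omega, by omega⟩, mem_Sw.2 ⟨by omega, by omega⟩, ?_⟩
    rw [hM]
    unfold mJ
    rw [if_pos h1]
  have hEpos : 0 < E m P Q := by
    by_contra h
    have : (w : ℝ) * E m P Q ≤ 0 := mul_nonpos_of_nonneg_of_nonpos (by linarith) (not_lt.1 h)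
    linarith
  have hSne : S.Nonempty := by
    by_contra h
    rw [not_nonempty_iff_eq_empty] at h
    have h1 : E m P Q = 0 := by
      unfold E
      refine sum_eq_zero fun u hu => sum_eq_zero fun v hv => ?_
      rcases (hR.nn u v).eq_or_lt with h0 | h0
      · exact h0.symm
      · have h2 := (hmem u hu v hv h0).1
        rw [h] at h2
        exact absurd h2 (notMem_empty u)
    linarith
  obtain ⟨f, hf1, hf2⟩ := exists_part hMs (κ := k / 4) S.card S le_rfl hSne
  have hcard := parts_le hR hk hconn a b f hf2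
  rw [← hS] at hcard
  set I := S.image f with hI
  have hdecomp : E m P Q = ∑ i ∈ I, ∑ j ∈ I,
      E M (P ∩ S.filter (fun v => f v = i)) (Q ∩ S.filter (fun v => f v = j)) := by
    have h1 : E m P Q = E M (P ∩ S) (Q ∩ S) := by
      unfold E
      rw [← sum_subset (s₁ := P ∩ S) (s₂ := P) inter_subset_left]
      · refine sum_congr rfl fun u hu => ?_
        rw [← sum_subset (s₁ := Q ∩ S) (s₂ := Q) inter_subset_left]
        · refine sum_congr rfl fun v hv => ?_
          rcases (hR.nn u v).eq_or_lt with h0 | h0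
          · rw [← h0, hM]
            unfold mJ
            rw [← h0, ite_self]
          · exact (hmem u (mem_inter.1 hu).1 v (mem_inter.1 hv).1 h0).2.2.symm
        · intro v hv hv'
          rcases (hR.nn u v).eq_or_lt with h0 | h0
          · exact h0.symm
          · exact absurd (mem_inter.2 ⟨hv, (hmem u (mem_inter.1 hu).1 v hv h0).2.1⟩) hv'
      · intro u hu hu'
        refine sum_eq_zero fun v hv => ?_
        rcases (hR.nn u v).eq_or_lt with h0 | h0
        · exact h0.symm
        · exact absurd (mem_inter.2 ⟨hu, (hmem u hu v hv h0).1⟩) hu'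
    have h2 : ∀ i, (P ∩ S.filter fun v => f v = i) = (P ∩ S).filter fun v => f v = i := by
      intro i
      rw [inter_filter]
    have h3 : ∀ i, (Q ∩ S.filter fun v => f v = i) = (Q ∩ S).filter fun v => f v = i := by
      intro i
      rw [inter_filter]
    rw [h1]
    simp only [h2, h3]
    unfold E
    have h4 : ∑ u ∈ P ∩ S, ∑ v ∈ Q ∩ S, M u v =
        ∑ i ∈ I, ∑ u ∈ (P ∩ S).filter (fun v => f v = i), ∑ v ∈ Q ∩ S, M u v :=
      (sum_fiberwise_of_maps_to (f := fun u => ∑ v ∈ Q ∩ S, M u v)
        (fun v hv => mem_image_of_mem f (mem_inter.1 hv).2)).symm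
    rw [h4]
    refine sum_congr rfl fun i _ => ?_
    rw [sum_comm (s := I)]
    refine sum_congr rfl fun u _ => ?_
    exact (sum_fiberwise_of_maps_to (f := fun v => M u v)
        (fun v hv => mem_image_of_mem f (mem_inter.1 hv).2)).symm
  -- a heavy pair of parts
  obtain ⟨i, hi, j, hj, hij⟩ : ∃ i ∈ I, ∃ j ∈ I,
      s ≤ E M (P ∩ S.filter (fun v => f v = i)) (Q ∩ S.filter (fun v => f v = j)) := by
    by_contra hcon
    push Not at hcon
    have hIne : I.Nonempty := hSne.image f
    have h1 : E m P Q < (I.card : ℝ) * ((I.card : ℝ) * s) := by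
      rw [hdecomp]
      have h2 : ∀ i ∈ I, ∑ j ∈ I,
          E M (P ∩ S.filter (fun v => f v = i)) (Q ∩ S.filter (fun v => f v = j)) <
            (I.card : ℝ) * s := by
        intro i hi
        have h3 := sum_lt_sum_of_nonempty hIne (fun j hj => hcon i hi j hj)
        rwa [sum_const, nsmul_eq_mul] at h3
      have h3 := sum_lt_sum_of_nonempty hIne h2
      rwa [sum_const, nsmul_eq_mul] at h3
    have h2 : (I.card : ℝ) ≤ 4 * (w + 1) := by exact_mod_cast hcard
    have h3 : (I.card : ℝ) * ((I.card : ℝ) * s) ≤ (4 * (w + 1)) * ((4 * (w + 1)) * s) := by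
      have h4 : (0 : ℝ) ≤ I.card := Nat.cast_nonneg _
      gcongr
    have h4 : (w : ℝ) * ((4 * (w + 1)) * ((4 * (w + 1)) * s)) = k := by
      rw [hs]
      field_simp
      ring
    have h5 : (w : ℝ) * E m P Q < k := by
      rw [← h4]
      exact mul_lt_mul_of_pos_left (lt_of_lt_of_le h1 h3) (by linarith)
    linarith
  -- an edge between these parts
  obtain ⟨y, hy, z, hz, hyz⟩ : ∃ y ∈ P ∩ S.filter (fun v => f v = i),
      ∃ z ∈ Q ∩ S.filter (fun v => f v = j), 0 < M y z := by
    by_contra hcon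
    push Not at hcon
    have h1 : E M (P ∩ S.filter (fun v => f v = i)) (Q ∩ S.filter (fun v => f v = j)) ≤ 0 :=
      sum_nonpos fun u hu => sum_nonpos fun v hv => hcon u hu v hv
    linarith
  rw [mem_inter] at hy hz
  have hsk : s ≤ k / 4 := by
    rw [hs]
    apply div_le_div_of_nonneg_left hk.le (by norm_num)
    nlinarith [sq_nonneg ((w : ℝ))]
  refine ⟨y, hy.1, z, hz.1, ?_, fun A hyA hzA => ?_⟩
  · rw [hM] at hyz
    unfold mJ at hyz
    split_ifs at hyz with h
    · exact hyz
    · exact absurd hyz (lt_irrefl _)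
  · by_cases h1 : S.filter (fun v => f v = i) ⊆ A
    · by_cases h2 : (S.filter (fun v => f v = j) ∩ A).Nonempty
      · -- the part `j` is cut
        refine hsk.trans ((hf1 j _ inter_subset_left h2 fun h => ?_).trans
          (E_mono hMnn inter_subset_right ?_))
        · have h3 : z ∈ S.filter (fun v => f v = j) ∩ A := by rw [h]; exact hz.2
          exact hzA (mem_inter.1 h3).2
        · intro v hv
          rw [mem_sdiff, mem_inter] at hv
          rw [mem_compl]
          exact fun h3 => hv.2 ⟨hv.1, h3⟩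
      · refine hij.trans (E_mono hMnn (inter_subset_right.trans h1) ?_)
        intro v hv
        rw [mem_compl]
        exact fun h3 => h2 ⟨v, mem_inter.2 ⟨(mem_inter.1 hv).2, h3⟩⟩
    · -- the part `i` is cut
      refine hsk.trans ((hf1 i (S.filter (fun v => f v = i) ∩ A) inter_subset_left
        ⟨y, mem_inter.2 ⟨hy.2, hyA⟩⟩ fun h => ?_).trans (E_mono hMnn inter_subset_right ?_))
      · exact h1 fun v hv => by
          have h3 : v ∈ S.filter (fun v => f v = i) ∩ A := by rw [h]; exact hv
          exact (mem_inter.1 h3).2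
      · intro v hv
        rw [mem_sdiff, mem_inter] at hv
        rw [mem_compl]
        exact fun h3 => hv.2 ⟨hv.1, h3⟩

end Pool.Agent.H99Thin
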